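import Pool.Agent.V8H73.GN.Main

/-!
# All solutions of random systems of equations with exponentials and elliptic functions together

Let `E_c = ℂ / Λ_c`, `c = 1, …, q`, be pairwise non-isogenous elliptic curves, with or without complex multiplication,
with arbitrary invariants (for the elliptico-toric conjecture `q = 1`). We consider systems of `s + n` equations

  `P_j(t_1, …, t_s, p_1, …, p_n, exp(t_1), …, exp(t_s), ℘(p_1), ℘'(p_1), …, ℘(p_n), ℘'(p_n)) = 0`

for `t_1, …, t_s` in `ℂ` and `p_1, …, p_n` in `ℂ` outside the lattices; here `℘(p_i)` belongs to the lattice with the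
number `ty i`, and the `P_j` are polynomials with supports contained in given finite sets of monomials, each of which
contains `1`, the variables `t_k`, `p_i`, `exp(t_k)`, `℘(p_i)`, and the products `t_k exp(t_k)`, `p_i ℘(p_i)` (for
instance all polynomials of given degrees at least two).

For ONE curve `E`, and a system with integral coefficients, the elliptico-toric conjecture for a solution `(t, p)` says
that in general `t_k, exp(t_k)`, `p_i, ℘(p_i), ζ(p_i)`, `g₂, g₃, ω₁, ω₂, η₁, η₂` generate a field of transcendence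
degree at least `s + 2 n + 4 / [k : ℚ]`. Because of the `s + n` equations this is the largest possible transcendence
degree over the field of the periods: `t_k`, `p_i`, `ζ(p_i)` should be independent over the field of the periods.

(A) **Almost all complex and almost all real systems.** Let `K` be a countable field of complex numbers, for instance
the algebraic closure of `ℚ(g₂, g₃, ω₁, ω₂, η₁, η₂)` for all the lattices. For almost all vectors `c` of complex
coefficients, and also for almost all vectors `c` of real coefficients, all solutions are nondegenerate, and the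
coefficients `c` and the numbers `t_k`, `p_i`, `ζ(p_i)` of ALL solutions together are algebraically independent over
`K`. So all the solutions together generate over `K(c)` a field of the predicted transcendence degree, `s + 2 n` for
each solution.

(B) **Integral systems.** Let `ξ_0, ξ_1, …` be arbitrary complex numbers (for instance the monomials in the periods)
and `C_0, C_1, …` compact subsets of the domain. There is a function `ω(T) → ∞` such that for all but at most the
proportion `1 / ω(T)` of the integral systems with coefficients bounded by `T` the following is true: all solutions in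
`C_ω(T)` are nondegenerate, and the numbers `t_k`, `p_i`, `ζ(p_i)` of all these solutions together satisfy no nonzero
algebraic relation of degree at most `ω(T)` in each of them, with coefficients `∑_{b < ω(T)} ξ_b c_b`, the `c_b`
integers of a number field of degree at most `ω(T)` with conjugates bounded by `T ^ ω(T)`.

There is no hypothesis of independence on the solutions.

Proof. Near systems without degenerate solutions the solutions `ζ_i(c)` are analytic functions of the coefficients. The
main point is that no nontrivial linear combination of the coordinates of the `ζ_i` is constant. Derivatives with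
respect to the coefficients of the equation `j` give `∑ w_(i, j) φ(ζ_i) = 0` for all monomials `φ` of this equation,
where `w_i` is the solution of `w_i J_i = m_i` with the Jacobian matrix `J_i`. By induction and Ax's theorem for
products of elliptic curves and multiplicative groups (with the values of the zeta functions) the coordinates of all
but one of the `ζ_i` are algebraically independent over the field `k` of the rational functions of `c`, and the
coordinates of the last one are affine functions of the other ones, with invertible matrices. Derivations of the field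
of the analytic functions show first that the derivatives of the last `w` vanish and then that the values of the
functions at the last `ζ` are algebraic over `k`. Then the polynomials `P_j` with these values are zero as polynomials
in the linear coordinates, and this forces `ζ = 0`, which is impossible. By Ax's theorem all the numbers in (A) are
algebraically independent over `k`, as functions of `c`. This implies (A), because the systems with degenerate
solutions are a null set. For real systems this uses Sard's theorem in the directions of the coefficients of `1` and of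
one of the monomials `φ` whose value is not real; if all these values are real, either a coordinate belongs to a
countable set or the functions are real near the solution. For (B) one uses the counting theorem for values of
independent analytic functions at rational points (library: `V8H73.RN`, `X255.RH`) near all points of the compact
complement of a neighbourhood of this null set.
-/

set_option autoImplicit false

open Filter Topology NumberField MeasureTheory
open scoped PeriodPair

namespace Pool.Agent.Results.MP_8da9ea_nt.AllSolutions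

/-- The Weierstrass zeta function `ζ(z) = ∑ (1/(z-l) + 1/l + z/l²)`, the sum over the lattice (the summand of
`l = 0` is `1/z`, since `1/0 = 0` in Lean). -/
noncomputable def ζ (L : PeriodPair) (z : ℂ) : ℂ :=
  ∑' l : L.lattice, (1 / (z - l) + 1 / l + z / l ^ 2)

/-! The linear coordinates `t_1, …, t_s, p_1, …, p_n`, which are also the numbers of the equations, are the elements of
`Fin s ⊕ Fin n`. The variables of the polynomials are the elements of `(Fin s ⊕ Fin n) ⊕ (Fin s ⊕ (Fin n ⊕ Fin n))`, that
is the linear coordinates, then `exp(t_k)`, `℘(p_i)`, `℘'(p_i)`. The monomials are given by their exponents. -/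

variable {q s n : ℕ} {S : Finset ((Fin s ⊕ Fin n) × ((Fin s ⊕ Fin n) ⊕ (Fin s ⊕ (Fin n ⊕ Fin n)) →₀ ℕ))}

/-- the points of the domain: the `p_i` are not in the lattices -/
def Domain (s : ℕ) (Λ : Fin q → PeriodPair) (ty : Fin n → Fin q) : Set (Fin s ⊕ Fin n → ℂ) :=
  {z | ∀ i, z (Sum.inr i) ∉ (Λ (ty i)).lattice}

/-- the values of the variables -/
noncomputable def point (Λ : Fin q → PeriodPair) (ty : Fin n → Fin q) (z : Fin s ⊕ Fin n → ℂ) :
    (Fin s ⊕ Fin n) ⊕ (Fin s ⊕ (Fin n ⊕ Fin n)) → ℂ :=
  Sum.elim z (Sum.elim (fun k => Complex.exp (z (Sum.inl k)))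
    (Sum.elim (fun i => ℘[Λ (ty i)] (z (Sum.inr i))) fun i => ℘'[Λ (ty i)] (z (Sum.inr i))))

/-- the values of the polynomials `P_j`, the sums of the monomials `c_(j, m) m` with `(j, m)` in `S` -/
noncomputable def value (Λ : Fin q → PeriodPair) (ty : Fin n → Fin q) (c : S → ℂ) (z : Fin s ⊕ Fin n → ℂ)
    (j : Fin s ⊕ Fin n) : ℂ :=
  ∑ m : S, if m.1.1 = j then c m * ∏ v, point Λ ty z v ^ m.1.2 v else 0

/-- the numbers `t_k`, `p_i`, `ζ(p_i)` -/
noncomputable def number (Λ : Fin q → PeriodPair) (ty : Fin n → Fin q) (z : Fin s ⊕ Fin n → ℂ) :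
    (Fin s ⊕ Fin n) ⊕ Fin n → ℂ :=
  Sum.elim z fun i => ζ (Λ (ty i)) (z (Sum.inr i))

/-- the solutions in a set -/
def Solutions (Λ : Fin q → PeriodPair) (ty : Fin n → Fin q) (c : S → ℂ) (C : Set (Fin s ⊕ Fin n → ℂ)) :
    Set (Fin s ⊕ Fin n → ℂ) :=
  {z | z ∈ C ∧ value Λ ty c z = 0}

/-- the numbers `t_k`, `p_i`, `ζ(p_i)` of all solutions in a set -/
noncomputable def numbers (Λ : Fin q → PeriodPair) (ty : Fin n → Fin q) (c : S → ℂ) (C : Set (Fin s ⊕ Fin n → ℂ)) :
    Solutions Λ ty c C × ((Fin s ⊕ Fin n) ⊕ Fin n) → ℂ :=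
  fun a => number Λ ty a.1.1 a.2

/-- the solutions in a set are nondegenerate -/
def Nondegenerate (Λ : Fin q → PeriodPair) (ty : Fin n → Fin q) (c : S → ℂ) (C : Set (Fin s ⊕ Fin n → ℂ)) : Prop :=
  ∀ z ∈ Solutions Λ ty c C, Function.Bijective (fderiv ℂ (value Λ ty c) z)

/-- All solutions are nondegenerate, and the coefficients and the numbers `t_k`, `p_i`, `ζ(p_i)` of all solutions
together are algebraically independent over `K`. -/
def Generic (Λ : Fin q → PeriodPair) (ty : Fin n → Fin q) (K : Subfield ℂ) (c : S → ℂ) : Prop :=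
  Nondegenerate Λ ty c (Domain s Λ ty) ∧ AlgebraicIndependent K (Sum.elim c (numbers Λ ty c (Domain s Λ ty)))

/-- Almost all complex and almost all real vectors of coefficients are generic. -/
def AlmostAll (Λ : Fin q → PeriodPair) (ty : Fin n → Fin q) (S : Finset ((Fin s ⊕ Fin n) × ((Fin s ⊕ Fin n) ⊕ (Fin s ⊕ (Fin n ⊕ Fin n)) →₀ ℕ)))
    (K : Subfield ℂ) : Prop :=
  (∀ᵐ c : S → ℂ, Generic Λ ty K c) ∧ ∀ᵐ c : S → ℝ, Generic Λ ty K fun m => (c m : ℂ)

/-- The numbers `x q` satisfy no nonzero polynomial relation `R` of degree at most `k` in each of them with coefficients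
`∑_{b < k} ξ_b c_b`, where the `c_b` are integers of a number field of degree at most `k` all of whose conjugates are at
most `T ^ k`. -/
def NoRelation {Q : Type} (ξ : ℕ → ℂ) (k : ℕ) (T : ℝ) (x : Q → ℂ) : Prop :=
  ∀ (F : Type) [Field F] [NumberField F], Module.finrank ℚ F ≤ k → ∀ (io : F →+* ℂ) (R : MvPolynomial Q ℂ),
    (∀ y, R.degreeOf y ≤ k) →
    (∀ m, ∃ c : Fin k → 𝓞 F, (∀ b (φ : F →+* ℂ), ‖φ (c b : F)‖ ≤ T ^ k) ∧ R.coeff m = ∑ b : Fin k, ξ b * io (c b : F)) →
    MvPolynomial.eval x R = 0 → R = 0

/-- The solutions in `C` are nondegenerate and the numbers `t_k`, `p_i`, `ζ(p_i)` of all of them together satisfy no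
relation. -/
def Good (Λ : Fin q → PeriodPair) (ty : Fin n → Fin q) (C : Set (Fin s ⊕ Fin n → ℂ)) (ξ : ℕ → ℂ) (k : ℕ) (T : ℝ)
    (c : S → ℂ) : Prop :=
  Nondegenerate Λ ty c C ∧ NoRelation ξ k T (numbers Λ ty c C)

open scoped Classical in
/-- the integral vectors bounded by `T` -/
noncomputable def box (S : Finset ((Fin s ⊕ Fin n) × ((Fin s ⊕ Fin n) ⊕ (Fin s ⊕ (Fin n ⊕ Fin n)) →₀ ℕ))) (T : ℕ) : Finset (S → ℤ) :=
  Fintype.piFinset fun _ => Finset.Icc (-(T : ℤ)) T

open scoped Classical in
/-- the integral vectors bounded by `T` which are not good -/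
noncomputable def exceptions (Λ : Fin q → PeriodPair) (ty : Fin n → Fin q)
    (S : Finset ((Fin s ⊕ Fin n) × ((Fin s ⊕ Fin n) ⊕ (Fin s ⊕ (Fin n ⊕ Fin n)) →₀ ℕ))) (C : Set (Fin s ⊕ Fin n → ℂ)) (ξ : ℕ → ℂ) (k T : ℕ) :
    Finset (S → ℤ) :=
  (box S T).filter fun w => ¬ Good Λ ty C ξ k T fun m => (w m : ℂ)

/-- there is no nonzero homomorphism from `ℂ / Λ_c` to `ℂ / Λ_c'` for `c ≠ c'` -/
def NonIsogenous (Λ : Fin q → PeriodPair) : Prop :=
  ∀ c c', c ≠ c' → ∀ α : ℂ, (∀ w ∈ (Λ c).lattice, α * w ∈ (Λ c').lattice) → α = 0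

/-- the function of a linear coordinate: `exp(t_k)` or `℘(p_i)` -/
def first : Fin s ⊕ Fin n → (Fin s ⊕ Fin n) ⊕ (Fin s ⊕ (Fin n ⊕ Fin n)) := fun l => Sum.inr (Sum.map id Sum.inl l)

/-- The supports contain `1`, `x`, `y`, `x y` for all linear coordinates `x` and their functions `y`. -/
def Large (S : Finset ((Fin s ⊕ Fin n) × ((Fin s ⊕ Fin n) ⊕ (Fin s ⊕ (Fin n ⊕ Fin n)) →₀ ℕ))) : Prop :=
  ∀ j, (j, 0) ∈ S ∧ ∀ l, (j, Finsupp.single (Sum.inl l) 1) ∈ S ∧ (j, Finsupp.single (first l) 1) ∈ S ∧
    (j, Finsupp.single (Sum.inl l) 1 + Finsupp.single (first l) 1) ∈ S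

section aux

open Pool.Agent.V8H73.GN

variable {Λ : Fin q → PeriodPair} {ty : Fin n → Fin q}

theorem dom_eq : Domain s Λ ty = (TE s Λ ty).W := by
  ext z
  constructor
  · rintro h (k | i)
    · exact Set.mem_univ _
    · exact h i
  · exact fun h i => h (Sum.inr i)

theorem point_eq (z : Fin s ⊕ Fin n → ℂ) : point Λ ty z = Sum.elim z ((TE s Λ ty).fz z) := by
  funext v
  rcases v with l | k | i | i <;> rfl

theorem value_eq (c : S → ℂ) : value Λ ty c = Ph (TE s Λ ty) c := by
  funext z j
  rw [Ph_sum]
  unfold value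
  refine Finset.sum_congr rfl fun m _ => ?_
  split_ifs
  · congr 1
    unfold mo
    rw [MvPolynomial.eval_monomial, one_mul, Finsupp.prod_fintype _ _ fun _ => pow_zero _, point_eq]
  · rfl

theorem number_eq (z : Fin s ⊕ Fin n → ℂ) : number Λ ty z =
    hv (Sum.inr : Fin n → Fin s ⊕ Fin n) (fun i => H667R3.zeta (Λ (ty i))) z := by
  funext v
  rcases v with l | i <;> rfl

theorem bij_of_det {c : S → ℂ} {z : Fin s ⊕ Fin n → ℂ} (hz : z ∈ Domain s Λ ty) (h : (Jm (TE s Λ ty) c z).det ≠ 0) :
    Function.Bijective (fderiv ℂ (value Λ ty c) z) := by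
  rw [dom_eq] at hz
  rw [value_eq, (Ph_deriv TE_ok c hz).fderiv]
  obtain ⟨e, he⟩ := Dl_inv TE_ok hz h
  rw [← he]
  exact e.bijective

theorem sol_eq (c : S → ℂ) (C : Set (Fin s ⊕ Fin n → ℂ)) :
    Solutions Λ ty c C = {z | z ∈ C ∧ Ph (TE s Λ ty) c z = 0} := by
  unfold Solutions
  rw [value_eq]

theorem generic_of {K : Subfield ℂ} {c : S → ℂ}
    (h : (∀ z ∈ (TE s Λ ty).W, Ph (TE s Λ ty) c z = 0 → (Jm (TE s Λ ty) c z).det ≠ 0) ∧
      AlgebraicIndependent K (Sum.elim c fun a : {z | z ∈ (TE s Λ ty).W ∧ Ph (TE s Λ ty) c z = 0} ×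
        ((Fin s ⊕ Fin n) ⊕ Fin n) => hv (Sum.inr : Fin n → Fin s ⊕ Fin n) (fun i => H667R3.zeta (Λ (ty i)))
          (a.1 : Fin s ⊕ Fin n → ℂ) a.2)) : Generic Λ ty K c := by
  constructor
  · rintro z ⟨hz, hz0⟩
    rw [value_eq] at hz0
    exact bij_of_det hz (h.1 z (by rw [← dom_eq]; exact hz) hz0)
  · have h3 : ∀ A B : Set (Fin s ⊕ Fin n → ℂ), A = B →
        AlgebraicIndependent K (Sum.elim c fun a : A × ((Fin s ⊕ Fin n) ⊕ Fin n) =>
          number Λ ty (a.1 : Fin s ⊕ Fin n → ℂ) a.2) →
        AlgebraicIndependent K (Sum.elim c fun a : B × ((Fin s ⊕ Fin n) ⊕ Fin n) =>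
          number Λ ty (a.1 : Fin s ⊕ Fin n → ℂ) a.2) := by
      rintro A B rfl h
      exact h
    refine h3 {z | z ∈ (TE s Λ ty).W ∧ Ph (TE s Λ ty) c z = 0} (Solutions Λ ty c (Domain s Λ ty)) ?_ ?_
    · rw [sol_eq, dom_eq]
    · simp only [number_eq]
      exact h.2

end aux

/-- **All solutions of random systems together.** Let the lattices `Λ_c` be pairwise non-isogenous, and let the
supports of all the polynomials `P_j` contain `1`, all `x_l`, all `y_l` and all `x_l y_l`, where `x_l` is one of the
linear coordinates `t_k`, `p_i` and `y_l` is its function `exp(t_k)` or `℘(p_i)`. (A) For every countable field `K` and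
almost all complex and almost all real vectors `c` of coefficients all solutions are nondegenerate, and the
coefficients and the numbers `t_k`, `p_i`, `ζ(p_i)` of all solutions together are algebraically independent over `K`.
(B) For all compact subsets `C_0, C_1, …` of the domain and all complex `ξ_b` there is `ω(T) → ∞` such that among all
integral systems with coefficients bounded by `T` at most the proportion `1 / ω(T)` is not good: all solutions in
`C_ω(T)` are nondegenerate and their numbers `t_k`, `p_i`, `ζ(p_i)` together satisfy no relation of degree at most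
`ω(T)` and height at most `T ^ ω(T)`. -/
theorem result (Λ : Fin q → PeriodPair) (ty : Fin n → Fin q) (hΛ : NonIsogenous Λ)
    (S : Finset ((Fin s ⊕ Fin n) × ((Fin s ⊕ Fin n) ⊕ (Fin s ⊕ (Fin n ⊕ Fin n)) →₀ ℕ))) (hS : Large S) :
    (∀ (K : Subfield ℂ) [Countable K], AlmostAll Λ ty S K) ∧
    ∀ C : ℕ → Set (Fin s ⊕ Fin n → ℂ), (∀ k, IsCompact (C k) ∧ C k ⊆ Domain s Λ ty) → ∀ ξ : ℕ → ℂ,
      ∃ ω : ℕ → ℕ, Tendsto ω atTop atTop ∧ Monotone ω ∧ ∀ T : ℕ,
        ω T * (exceptions Λ ty S (C (ω T)) ξ (ω T) T).card ≤ (box S T).card := by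
  classical
  have hf : ∀ l : Fin s ⊕ Fin n, first l = Sum.inr (Pool.Agent.V8H73.GN.opE s n l) := by
    rintro (k | i) <;> rfl
  have hS' : Pool.Agent.V8H73.GN.Four (Pool.Agent.V8H73.GN.opE s n) S := by
    refine ⟨fun j => (hS j).1, fun j l => ((hS j).2 l).1, fun j l => ?_, fun j l => ?_⟩
    · rw [← hf]
      exact ((hS j).2 l).2.1
    · rw [← hf]
      exact ((hS j).2 l).2.2
  have hA := Pool.Agent.V8H73.GN.TE_ax (s := s) (ty := ty) (Λ := Λ) fun c c' hc α hα => hΛ c c' hc α hα
  constructor
  · intro K _
    constructor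
    · filter_upwards [Pool.Agent.V8H73.GN.ae_all hA hS' K] with c hc
      exact generic_of hc
    · filter_upwards [Pool.Agent.V8H73.GN.ae_all_R hA Pool.Agent.V8H73.GN.TE_rl hS' K] with c hc
      exact generic_of hc
  · intro C hC ξ
    obtain ⟨ω, h1, h2, h3⟩ := Pool.Agent.V8H73.GN.int_main hA Pool.Agent.V8H73.GN.TE_rl hS' C
      (fun k => ⟨(hC k).1, by rw [← dom_eq]; exact (hC k).2⟩) ξ
    have hbox : ∀ (D : DecidableEq S) (T : ℕ), @Pool.Agent.V8H73.AZ.bx S _ D T = box S T := by
      intro D T
      unfold box Pool.Agent.V8H73.AZ.bx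
      congr 1
      exact Subsingleton.elim _ _
    refine ⟨ω, h1, h2, fun T => ?_⟩
    have h4 := h3 T
    rw [hbox] at h4
    refine le_trans (Nat.mul_le_mul_left _ (Finset.card_le_card fun w hw => ?_)) h4
    unfold exceptions at hw
    rw [Finset.mem_filter] at hw ⊢
    refine ⟨hw.1, fun hg => hw.2 ?_⟩
    constructor
    · rintro z ⟨hz, hz0⟩
      rw [value_eq] at hz0
      exact bij_of_det ((hC _).2 hz) (hg.1 z hz hz0)
    · have h5 : ∀ A B : Set (Fin s ⊕ Fin n → ℂ), A = B → ∀ k : ℕ, ∀ T : ℝ,
          NoRelation ξ k T (fun a : A × ((Fin s ⊕ Fin n) ⊕ Fin n) => number Λ ty (a.1 : Fin s ⊕ Fin n → ℂ) a.2) →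
          NoRelation ξ k T (fun a : B × ((Fin s ⊕ Fin n) ⊕ Fin n) => number Λ ty (a.1 : Fin s ⊕ Fin n → ℂ) a.2) := by
        rintro A B rfl k T h
        exact h
      refine h5 {z | z ∈ C (ω T) ∧ Pool.Agent.V8H73.GN.Ph (Pool.Agent.V8H73.GN.TE s Λ ty)
        (Pool.Agent.V8H73.GN.cn w) z = 0} (Solutions Λ ty (fun m => (w m : ℂ)) (C (ω T))) ?_ _ _ ?_
      · rw [sol_eq]
        rfl
      · simp only [number_eq]
        exact hg.2

end Pool.Agent.Results.MP_8da9ea_nt.AllSolutions
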