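import Pool.Agent.V8H73.RN.Ind
import Pool.Agent.V8H73.RN.UniF

/-!
# The elliptico-toric conjecture for the conjugates of random points over random number fields

Let `E_1, …, E_q` be pairwise non-isogenous elliptic curves `ℂ / Λ_c` (for the elliptico-toric conjecture `q = 1`), with
or without complex multiplication. Let `k = ℚ(θ)` be a number field of degree `g`, `x_1, …, x_n` and `y_1, …, y_s`
elements of `k`. For each embedding `σ` of `k` let `u_i^σ` be elliptic logarithms, `℘(u_i^σ) = σ x_i` (with `℘` of the
lattice with the number `ty i`), and `l_k^σ` logarithms, `exp(l_k^σ) = σ y_k`. For ONE curve `E` the elliptico-toric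
conjecture for the `g n` points `u_i^σ` and the `g s` numbers `l_k^σ` for all `i, k` and all embeddings `σ` together says
that in general

  `tr.deg ℚ(g₂, g₃, ω₁, ω₂, η₁, η₂, u_i^σ, ζ(u_i^σ), σ x_i, l_k^σ, σ y_k) ≥ g s + 4 / [K : ℚ] + 2 g n`,

`K = End(E) ⊗ ℚ`. We prove for almost all `(k, x, y)` that the `g (2 n + s)` numbers `u_i^σ`, `ζ(u_i^σ)`, `l_k^σ` satisfy no
relation of growing degree and height relative to arbitrary constants, for instance the monomials in `π`, `ω₁`, `ω₂`,
`η₁`, `η₂` (and in `g₂, g₃`). So in this sense the transcendence degree over the field of the periods is the predicted one;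
in the case of complex multiplication the field of the periods has transcendence degree `2 = 4 / [K : ℚ]` for algebraic
`g₂, g₃` (Chudnovsky), and one has the full bound of the conjecture.

Precisely: we choose at random an integral polynomial of degree `g` with a root `θ`, and the elements `x_i, y_k` of
`k = ℚ(θ)`, that is, their coordinates in the basis `1, θ, …, θ^(g-1)` (rational numbers with a common denominator),
all integers bounded by `T`. With a proportion of exceptions at most `1 / ω(T)` the numbers `u_i`, `ζ(u_i)`, `l_k` at ALL the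
roots of the polynomial together satisfy no algebraic relation of degree at most `ω(T)` in each of them over number
fields of degree at most `ω(T)`, of height at most `T ^ ω(T)`, relative to `ω(T)` arbitrary complex numbers, where
`ω(T) → ∞`. The `u_i` and `l_k` are given by analytic branches on any connected open set `U` of the space of the data
`(x, y)`, and the roots (embeddings) are considered for which the data are in a closed subset `K_(ω(T))` of `U`.

In the starting theorems `AlmostAllTranslates` and `GrowingDegreeTranslates` all the points `(x, y)` are chosen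
independently of each other (algebraic integers of bounded degree, one number field for each); tuples of conjugates
are a very thin subset there. `RandomNumberFields` treats families with a nonconstant modulus.
-/

set_option autoImplicit false

open Polynomial Filter Topology NumberField
open scoped PeriodPair

namespace Pool.Agent.Results.MP_8da9ea_nt.ConjugatePoints

/-- The Weierstrass zeta function `ζ(z) = ∑ (1/(z-l) + 1/l + z/l²)`, the sum over the lattice (the summand of
`l = 0` is `1/z`, since `1/0 = 0` in Lean). -/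
noncomputable def ζ (L : PeriodPair) (z : ℂ) : ℂ :=
  ∑' l : L.lattice, (1 / (z - l) + 1 / l + z / l ^ 2)

/-- Analytic branches of elliptic logarithms and logarithms on a connected open set `U` of the space with the
coordinates `x_i`, `y_k`, for pairwise non-isogenous lattices `Λ_c`; the point with the number `i` belongs to the lattice
with the number `ty i`. -/
structure Branches {q n s : ℕ} (U : Set (Fin n ⊕ Fin s → ℂ)) (Λ : Fin q → PeriodPair) (ty : Fin n → Fin q)
    (u : Fin n → (Fin n ⊕ Fin s → ℂ) → ℂ) (l : Fin s → (Fin n ⊕ Fin s → ℂ) → ℂ) : Prop where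
  isOpen : IsOpen U
  isPreconnected : IsPreconnected U
  nonempty : U.Nonempty
  /-- there is no nonzero homomorphism from `ℂ / Λ_c` to `ℂ / Λ_c'` -/
  nonisogenous : ∀ c c', c ≠ c' → ∀ α : ℂ, (∀ w ∈ (Λ c).lattice, α * w ∈ (Λ c').lattice) → α = 0
  analytic_u : ∀ i, AnalyticOnNhd ℂ (u i) U
  u_notMem : ∀ i, ∀ x ∈ U, u i x ∉ (Λ (ty i)).lattice
  wp : ∀ i, ∀ x ∈ U, ℘[Λ (ty i)] (u i x) = x (Sum.inl i)
  analytic_l : ∀ k, AnalyticOnNhd ℂ (l k) U
  exp : ∀ k, ∀ x ∈ U, Complex.exp (l k x) = x (Sum.inr k)

/-- The `2 n + s` functions `u_i`, `ζ(u_i)`, `l_k` -/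
noncomputable def value {q n s : ℕ} (Λ : Fin q → PeriodPair) (ty : Fin n → Fin q)
    (u : Fin n → (Fin n ⊕ Fin s → ℂ) → ℂ) (l : Fin s → (Fin n ⊕ Fin s → ℂ) → ℂ) :
    Fin n ⊕ (Fin n ⊕ Fin s) → (Fin n ⊕ Fin s → ℂ) → ℂ
  | Sum.inl i, x => u i x
  | Sum.inr (Sum.inl i), x => ζ (Λ (ty i)) (u i x)
  | Sum.inr (Sum.inr k), x => l k x

/-! ### The random number fields and their elements -/

/-- The indices of the random integers: the coefficients `a_0, …, a_g` of the polynomial, the common denominator, and
the numerators of the coordinates of the `x_j`, `j` in `X`, in the basis `1, θ, …, θ^(g-1)`. -/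
abbrev Index (g : ℕ) (X : Type) : Type := Fin (g + 1) ⊕ Option (X × Fin g)

/-- the integral vectors bounded by `T` -/
noncomputable def box (g : ℕ) (X : Type) [Fintype X] [DecidableEq X] (T : ℕ) : Finset (Index g X → ℤ) :=
  Fintype.piFinset fun _ => Finset.Icc (-(T : ℤ)) T

/-- the polynomial `a_0 + a_1 x + … + a_g x^g` -/
noncomputable def poly {g : ℕ} {X : Type} (n : Index g X → ℤ) : ℂ[X] :=
  ∑ i : Fin (g + 1), C ((n (Sum.inl i) : ℤ) : ℂ) * Polynomial.X ^ (i : ℕ)

/-- the denominator -/
def denominator {g : ℕ} {X : Type} (n : Index g X → ℤ) : ℤ := n (Sum.inr none)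

/-- the point `(x_j)` of `ℂ^X` for the root `θ` of the polynomial (the embedding of the number field given by `θ`) -/
noncomputable def point {g : ℕ} {X : Type} (n : Index g X → ℤ) (θ : ℂ) : X → ℂ :=
  fun j => ∑ a : Fin g, ((n (Sum.inr (some (j, a))) : ℤ) : ℂ) / ((denominator n : ℤ) : ℂ) * θ ^ (a : ℕ)

/-- the roots (embeddings) for which the point is in the set `K` -/
noncomputable def roots {g : ℕ} {X : Type} (K : Set (X → ℂ)) (n : Index g X → ℤ) : Finset ℂ := by
  classical exact (poly n).roots.toFinset.filter fun θ => point n θ ∈ K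

/-- The numbers `x q` satisfy no nonzero polynomial relation `R` of degree at most `k` in each of them with coefficients
`∑_{b < k} ξ_b c_b`, where the `c_b` are integers of a number field of degree at most `k` all of whose conjugates are at
most `T ^ k`. -/
def NoRelation {Q : Type} (ξ : ℕ → ℂ) (k : ℕ) (T : ℝ) (x : Q → ℂ) : Prop :=
  ∀ (F : Type) [Field F] [NumberField F], Module.finrank ℚ F ≤ k → ∀ (io : F →+* ℂ) (R : MvPolynomial Q ℂ),
    (∀ y, R.degreeOf y ≤ k) →
    (∀ m, ∃ c : Fin k → 𝓞 F, (∀ b (φ : F →+* ℂ), ‖φ (c b : F)‖ ≤ T ^ k) ∧ R.coeff m = ∑ b : Fin k, ξ b * io (c b : F)) →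
    MvPolynomial.eval x R = 0 → R = 0

/-- The polynomial has degree `g` and simple roots, the denominator is not zero, and there is no relation between the
values of the `2 n + s` functions at the points for ALL the roots with points in `K` together. -/
def Good {g q n s : ℕ} (K : Set (Fin n ⊕ Fin s → ℂ)) (Λ : Fin q → PeriodPair) (ty : Fin n → Fin q)
    (u : Fin n → (Fin n ⊕ Fin s → ℂ) → ℂ) (l : Fin s → (Fin n ⊕ Fin s → ℂ) → ℂ) (ξ : ℕ → ℂ) (k : ℕ) (T : ℝ)
    (v : Index g (Fin n ⊕ Fin s) → ℤ) : Prop :=
  v (Sum.inl (Fin.last g)) ≠ 0 ∧ (poly v).Separable ∧ denominator v ≠ 0 ∧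
    NoRelation ξ k T fun a : {θ // θ ∈ roots K v} × (Fin n ⊕ (Fin n ⊕ Fin s)) => value Λ ty u l a.2 (point v a.1)

open scoped Classical in
/-- **Conjugates of random points over random number fields.** For all branches on `U`, every degree `g ≥ 1`, all closed
sets `K_0, K_1, …` contained in `U` and all complex numbers `ξ_0, ξ_1, …` there is a function `ω(T) → ∞` such that among
all integral vectors bounded by `T` (a polynomial `f` of degree `g` and elements `x_i`, `y_k` of `ℚ[x]/(f)`) at most the
proportion `1 / ω(T)` is not good, the roots with points in `K_(ω(T))` being considered. -/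
theorem result {q n s : ℕ} {U : Set (Fin n ⊕ Fin s → ℂ)} {Λ : Fin q → PeriodPair} {ty : Fin n → Fin q}
    {u : Fin n → (Fin n ⊕ Fin s → ℂ) → ℂ} {l : Fin s → (Fin n ⊕ Fin s → ℂ) → ℂ} (h : Branches U Λ ty u l)
    (g : ℕ) (hg : 0 < g) (K : ℕ → Set (Fin n ⊕ Fin s → ℂ)) (hK : ∀ k, IsClosed (K k) ∧ K k ⊆ U) (ξ : ℕ → ℂ) :
    ∃ ω : ℕ → ℕ, Tendsto ω atTop atTop ∧ Monotone ω ∧ ∀ T : ℕ,
      ω T * ((box g (Fin n ⊕ Fin s) T).filter fun v => ¬ Good (K (ω T)) Λ ty u l ξ (ω T) T v).card ≤
        (box g (Fin n ⊕ Fin s) T).card := by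
  have hb : Pool.Agent.V8H73.RN.BrF U Λ ty u l := ⟨h.isOpen, h.isPreconnected, h.nonempty,
    fun c c' hc α hα => h.nonisogenous c c' hc α hα, h.analytic_u, h.u_notMem, h.wp, h.analytic_l, h.exp⟩
  obtain ⟨ω, h1, h2, h3⟩ := Pool.Agent.V8H73.RN.main_ind (g := g) hg h.isPreconnected h.isOpen hb.an hb.ind K hK ξ
  have hv : ∀ y, Pool.Agent.V8H73.RN.vf Λ ty u l y = value Λ ty u l y := by
    rintro (i | i | k)
    · rfl
    · rfl
    · rfl
  refine ⟨ω, h1, h2, fun T => le_trans (Nat.mul_le_mul_left _ (Finset.card_le_card fun v hvm => ?_)) (h3 T)⟩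
  rw [Finset.mem_filter] at hvm ⊢
  refine ⟨hvm.1, fun hno => hvm.2 ?_⟩
  simp only [hv] at hno
  exact hno

end Pool.Agent.Results.MP_8da9ea_nt.ConjugatePoints
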