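import Pool.Agent.V8H78.PA.Adic
import Pool.Agent.N671.DA.Tup
import Pool.Agent.Results.MP_8da9ea_nt.AlmostAllTranslates

/-!
# The elliptico-toric inequality in bounded degree at the integral points near almost all points over several primes

Let `E : y² = 4 x³ - g₂ x - g₃` be an elliptic curve with rational `g₂`, `g₃` and lattice `Λ`, and let `(z, y)` be any point
of the Lie algebra `ℂⁿ × ℂˢ` of `E^n × G_m^s`, `k = n + s ≥ 1`. Let `A_i ≠ 0`, `B_i` be integers. For an integer vector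
`v = (v_1, …, v_k)` we translate `(z, y)` by logarithms of the points with the coordinates `α_i = A_i v_i + B_i`:
`℘(p_i - z_i) = α_i` for `i = 1, …, n` and `exp(t_l - y_l) = α_(n+l)` for `l = 1, …, s`.

Let `P_1, …, P_r` be primes and `x = (x_1, …, x_r)`, `x_j` a vector of `k` integers of `ℚ_(P_j)`. We consider the integer
vectors `v` which are close to `x` at all the `r` primes, `|x_j - v|_(P_j) ≤ c |v| ^ (-τ)` for `j = 1, …, r`. For `τ = 1 / r`
examples are the residues of `x` modulo `M`, `M = ∏ P_j ^ (e_j)` with `P_j ^ (e_j) ≤ κ P_l ^ (e_l)` for all `j`, `l`: one vector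
for each such number `M`, by the Chinese remainder theorem; for `r = 1` these are the truncations of the padic expansions. We
show that for all `x` outside a set of Hausdorff dimension at most `(k - c₀) / τ` with some `c₀ > 0`, which is less than the
dimension `r k` of the space for `τ = 1 / r`, the following is true for all large `v` of this kind and all translates
`(p, t)`: every polynomial relation of bounded degree over number fields of bounded degree, of any height, between arbitrary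
constants `w_1, …, w_q` (for instance `ω₁, ω₂, η₁, η₂`), the numbers `p_i`, `ζ(p_i)`, `t_l` and the numbers `℘(p_i)`, `℘'(p_i)`,
`exp(t_l)` is an identity in the numbers `p_i`, `ζ(p_i)`, `t_l`. The number `c₀` does not depend on `(z, y)`, `w`, `A`, `B`, the
primes and `τ`.

The residues of a fixed point modulo the powers of `p` are a very sparse sequence, about `log T` vectors of norm at most `T`,
and so this does not follow from the size of the exceptional set, which is only known to be smaller than `T^k` by a factor `T^c`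
with a small positive `c`.

The proof uses the count of the exceptional tuples of integers of the starting theorem `AlmostAllTranslates` of this problem
(`Pool.Agent.Y916.Sch.tupP`) and a version for several primes of the tool `Pool.Agent.N575.PA` of helper575.
-/

set_option autoImplicit false

open scoped PeriodPair

namespace Pool.Agent.Results.MP_8da9ea_nt.PadicApproximations

open Pool.Agent.N671.DA (thin_of_nat)
open Pool.Agent.V8H78.PA (adic_vectors residues Residues)
open Pool.Agent.Results.MP_8da9ea_nt.AlmostAllTranslates (zeta logarithms points FreeOverPoints IsTranslate)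

/-- an integer of absolute value at most `T` is an algebraic integer of degree one with conjugates at most `T` -/
lemma aint_int {T : ℝ} {x : ℤ} (hx : |(x : ℝ)| ≤ T) : Pool.Agent.Y916.Sl.AInt 1 T (x : ℂ) := by
  refine ⟨Polynomial.X - Polynomial.C x, Polynomial.monic_X_sub_C x, Polynomial.natDegree_X_sub_C x, by simp, fun z hz => ?_⟩
  have h1 : z = (x : ℂ) := by
    simpa [sub_eq_zero] using hz
  rw [h1, Complex.norm_intCast]
  exact hx

/-- all translates of `(z, y)` by logarithms of the point given by `α_i = A_i v_i + B_i` are free over their points and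
`w` -/
def AllFree (Λ : PeriodPair) (δ d : ℕ) {q n s : ℕ} (w : Fin q → ℂ) (z : Fin n → ℂ) (y : Fin s → ℂ)
    (A B v : Fin (n + s) → ℤ) : Prop :=
  ∀ (p : Fin n → ℂ) (t : Fin s → ℂ), IsTranslate Λ z y (fun i => ((A i * v i + B i : ℤ) : ℂ)) p t →
    FreeOverPoints Λ δ d w p t

/-- **The elliptico-toric inequality at the integral points near almost all points over several primes.** Let `Λ` be a
lattice with rational invariants and `n + s ≥ 1`. For all `q`, `δ`, `d` there is `c₀ > 0` such that for all complex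
`w_1, …, w_q`, all `(z, y)` in `ℂⁿ × ℂˢ`, all integers `A_i ≠ 0`, `B_i`, all primes `P_1, …, P_r` and `τ > 0`, for all points
`x = (x_1, …, x_r)`, `x_j ∈ ℤ_(P_j)^(n+s)`, outside a set of Hausdorff dimension at most `(n + s - c₀) / τ`
(1) for all `c` and all large integer vectors `v` with `|x_j - v|_(P_j) ≤ c |v| ^ (-τ)` for all `j`, all translates of `(z, y)` by
logarithms of the point given by `α_i = A_i v_i + B_i` are free over their points and `w`;
(2) if `r ≥ 1` and `τ = 1 / r` (the dimension is at most `r (n + s) - r c₀`), then in particular for all `κ` and all large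
`M = ∏ P_j ^ (e_j)` with `P_j ^ (e_j) ≤ κ P_l ^ (e_l)` for all `j`, `l` this is true for the residues `v` of `x` modulo `M`
(`0 ≤ v_i < M` and `v_i ≡ x_(j,i)` modulo `P_j ^ (e_j)` for all `i`, `j`). -/
theorem result (Λ : PeriodPair) (a b : ℚ) (ha : Λ.g₂ = a) (hb : Λ.g₃ = b) (n s q : ℕ) (hns : 1 ≤ n + s) (δ d : ℕ) :
    ∃ c₀ : ℝ, 0 < c₀ ∧ ∀ (w : Fin q → ℂ) (z : Fin n → ℂ) (y : Fin s → ℂ) (A B : Fin (n + s) → ℤ), (∀ i, A i ≠ 0) →
      ∀ (r : ℕ) (P : Fin r → ℕ) [∀ j, Fact (P j).Prime] (τ : ℝ), 0 < τ →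
      ∃ E : Set (∀ j : Fin r, Fin (n + s) → ℤ_[P j]), dimH E ≤ ENNReal.ofReal ((((n + s : ℕ) : ℝ) - c₀) / τ) ∧
        ∀ x, x ∉ E →
          (∀ c : ℝ, ∃ Q : ℝ, ∀ v : Fin (n + s) → ℤ, Q ≤ ‖v‖ →
            (∀ j i, ‖x j i - (v i : ℤ_[P j])‖ ≤ c * ‖v‖ ^ (-τ)) → AllFree Λ δ d w z y A B v) ∧
          (1 ≤ r → τ = 1 / (r : ℝ) → ∀ κ : ℝ, ∃ Q : ℝ, ∀ e : Fin r → ℕ,
            (∀ j l, (P j : ℝ) ^ e j ≤ κ * (P l : ℝ) ^ e l) → Q ≤ ∏ j, (P j : ℝ) ^ e j →
            ∀ v : Fin (n + s) → ℤ, Residues P x e v → AllFree Λ δ d w z y A B v) := by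
  obtain ⟨c₁, hc₁, C, hC, h⟩ := Pool.Agent.Y916.Sch.tupP Λ a b ha hb n s q 1 δ d le_rfl
  have hMm : Pool.Agent.Y916.Sl.Mm 1 = 1 := by rw [Pool.Agent.Y916.Sl.Mm_eq]
  rw [hMm, mul_one] at h
  have hk1 : (1 : ℝ) ≤ ((n + s : ℕ) : ℝ) := by exact_mod_cast hns
  obtain ⟨c₀, hc₀⟩ : ∃ c₀ : ℝ, c₀ = min c₁ 1 := ⟨_, rfl⟩
  have hc0 : 0 < c₀ := by rw [hc₀]; exact lt_min hc₁ one_pos
  have hc01 : c₀ ≤ 1 := by rw [hc₀]; exact min_le_right _ _
  have hc0c : c₀ ≤ c₁ := by rw [hc₀]; exact min_le_left _ _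
  refine ⟨c₀, hc0, fun w z y A B hA r P _ τ hτ => ?_⟩
  obtain ⟨R, hR⟩ : ∃ R : ℕ, R = 1 + ∑ i, ((A i).natAbs + (B i).natAbs) := ⟨_, rfl⟩
  have hR1 : 1 ≤ R := by rw [hR]; omega
  obtain ⟨φ, hφ⟩ : ∃ φ : (Fin (n + s) → ℤ) → (Fin (n + s) → ℂ), φ = fun v i => ((A i * v i + B i : ℤ) : ℂ) := ⟨_, rfl⟩
  have hinj : Function.Injective φ := by
    intro v v' hv
    funext i
    have h1 : ((A i * v i + B i : ℤ) : ℂ) = ((A i * v' i + B i : ℤ) : ℂ) := by
      have := congrFun hv i
      rw [hφ] at this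
      exact this
    have h2 : A i * v i + B i = A i * v' i + B i := by exact_mod_cast h1
    have h3 : A i * (v i - v' i) = 0 := by linarith
    rcases mul_eq_zero.1 h3 with h4 | h4
    · exact absurd h4 (hA i)
    · exact sub_eq_zero.1 h4
  obtain ⟨W, hW⟩ : ∃ W : Set (Fin (n + s) → ℤ),
      W = {v | ¬ ∀ (p : Fin n → ℂ) (t : Fin s → ℂ), IsTranslate Λ z y (φ v) p t → FreeOverPoints Λ δ d w p t} := ⟨_, rfl⟩
  have hT : Pool.Agent.N671.DA.Thin W (((n + s : ℕ) : ℝ) - c₀) := by
    refine thin_of_nat (C₀ := C * (R : ℝ) ^ (((n + s : ℕ) : ℝ) - c₀)) (by linarith) fun X hX => ?_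
    have hX0 : (0 : ℝ) ≤ X := Nat.cast_nonneg X
    have hR0 : (0 : ℝ) ≤ R := Nat.cast_nonneg R
    have hRX : 1 ≤ R * X := Nat.mul_pos hR1 hX
    obtain ⟨hf, hle⟩ := h w z y (R * X) hRX
    have hRX1 : (1 : ℝ) ≤ ((R * X : ℕ) : ℝ) := by exact_mod_cast hRX
    have hle2 : C * ((R * X : ℕ) : ℝ) ^ (((n + s : ℕ) : ℝ) - c₁) ≤ C * ((R * X : ℕ) : ℝ) ^ (((n + s : ℕ) : ℝ) - c₀) :=
      mul_le_mul_of_nonneg_left (Real.rpow_le_rpow_of_exponent_le hRX1 (by linarith)) hC
    have e1 : C * ((R * X : ℕ) : ℝ) ^ (((n + s : ℕ) : ℝ) - c₀) =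
        C * (R : ℝ) ^ (((n + s : ℕ) : ℝ) - c₀) * (X : ℝ) ^ (((n + s : ℕ) : ℝ) - c₀) := by
      rw [Nat.cast_mul, Real.mul_rpow hR0 hX0, mul_assoc]
    rw [← e1]
    refine le_trans (Nat.cast_le.2 ?_) (hle.trans hle2)
    refine Set.ncard_le_ncard_of_injOn φ ?_ hinj.injOn hf
    rintro v ⟨hv1, hv2⟩
    refine ⟨fun i => ?_, ?_⟩
    · rw [hφ]
      refine aint_int ?_
      have e2 : (((A i).natAbs + (B i).natAbs : ℕ) : ℝ) ≤ R := by
        rw [hR]
        have := Finset.single_le_sum (f := fun i => (A i).natAbs + (B i).natAbs) (fun i _ => Nat.zero_le _) (Finset.mem_univ i)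
        exact_mod_cast this.trans (Nat.le_add_left _ _)
      have e3 : (1 : ℝ) ≤ X := by exact_mod_cast hX
      have e4 : |(v i : ℝ)| ≤ X := by exact_mod_cast hv1 i
      have e5 : |((A i * v i + B i : ℤ) : ℝ)| ≤ |((A i : ℤ) : ℝ)| * |(v i : ℝ)| + |((B i : ℤ) : ℝ)| := by
        push_cast
        refine (abs_add_le _ _).trans ?_
        rw [abs_mul]
      have e6 : (((A i).natAbs + (B i).natAbs : ℕ) : ℝ) = |((A i : ℤ) : ℝ)| + |((B i : ℤ) : ℝ)| := by
        push_cast
        rw [Nat.cast_natAbs, Nat.cast_natAbs, Int.cast_abs, Int.cast_abs]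
      rw [e6] at e2
      have e7 := abs_nonneg ((A i : ℤ) : ℝ)
      have e8 := abs_nonneg ((B i : ℤ) : ℝ)
      push_cast
      push_cast at e5
      nlinarith [mul_le_mul_of_nonneg_left e4 e7, mul_le_mul_of_nonneg_left e3 e8, mul_le_mul_of_nonneg_right e2 hX0]
    · rw [hW] at hv2
      simp only [not_forall, Set.mem_ofPred_eq] at hv2
      obtain ⟨p, t, hu, hF'⟩ := hv2
      exact ⟨p, t, hu.1, hu.2, hF'⟩
  obtain ⟨E, hE, hEint, hE2⟩ := adic_vectors P W (s := ((n + s : ℕ) : ℝ) - c₀) (by linarith) hT hτ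
  have hfree : ∀ v : Fin (n + s) → ℤ, v ∉ W → AllFree Λ δ d w z y A B v := by
    intro v hv
    rw [hW, hφ] at hv
    unfold AllFree
    simpa only [Set.mem_ofPred_eq, not_not] using hv
  refine ⟨E, hE, fun x hx => ⟨fun c => ?_, fun hr hτr κ => ?_⟩⟩
  · obtain ⟨Q, hQ⟩ := hE2 x hx c
    exact ⟨Q, fun v hv h1 => hfree v (hQ v hv h1)⟩
  · obtain ⟨Q₁, hQ₁⟩ := hE2 x hx (|κ| + 1)
    obtain ⟨Q, hQ⟩ := residues hr P x (fun v hv => hx (by rw [hv]; exact hEint v)) κ Q₁
    refine ⟨Q, fun e he hQe v hv => ?_⟩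
    obtain ⟨h1, h2⟩ := hQ e he hQe v hv
    exact hfree v (hQ₁ v h1 (by rw [hτr]; exact h2))

end Pool.Agent.Results.MP_8da9ea_nt.PadicApproximations
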