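import Pool.Agent.V8H73.RN.Ind
import Pool.Agent.V8H73.RN.Uni

/-!
# The elliptico-toric conjecture over random number fields: algebraic data, all conjugates together

Let `k = ℚ(z)` be a number field of degree `g`, `E : y² = 4 x³ - g₂ x - g₃` an elliptic curve over `k`, `P_1, …, P_r`
points of `E` with first coordinates `x_i` in `k` and `y_1, …, y_s` elements of `k`. The elliptico-toric conjecture
predicts that in general the `4 + 2 r + s` numbers `ω₁, ω₂, η₁, η₂`, `p_i`, `ζ(p_i)` (`℘(p_i) = x_i`), `t_l`
(`exp(t_l) = y_l`) are algebraically independent; here all data are algebraic, and the conjectural bound is an equality.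
With Legendre's relation these are the `3 + 2 r + s` numbers `ω₁, ω₂, η₁, p_i, ζ(p_i), t_l` and `2 π i`. For the
`1`-motive with all its conjugates (the restriction of scalars to the rational numbers), which is of the same kind, the
conjecture says that the `g (3 + 2 r + s)` numbers of this kind for ALL the embeddings of `k` are algebraically
independent over `ℚ(π)`.

We choose at random an integral polynomial of degree `g` with a root `z`, and the elements `g₂, g₃, x_i, y_l` of
`k = ℚ(z)`, that is, their coordinates in the basis `1, z, …, z^(g-1)` (rational numbers with a common denominator),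
all integers bounded by `T`. We prove that with a proportion of exceptions at most `1 / ω(T)` the numbers
`ω₁, ω₂, η₁, p_i, ζ(p_i), t_l` at all roots together satisfy no algebraic relation of degree at most `ω(T)`, over number
fields of degree at most `ω(T)` (for instance the Galois closure of `k`), of height at most `T ^ ω(T)`, relative to
`ω(T)` arbitrary complex numbers (for instance the powers of `π`, and the periods of other motives), where
`ω(T) → ∞`. The periods and logarithms are given by analytic branches on any open set `U` of the space of the data,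
and the roots (embeddings) are considered for which the data are in a closed subset `K_(ω(T))` of `U`.

More generally `g₂, g₃, x_i, y_l` can be algebraic functions of random elements of `k`, on any parameter space of any
dimension (families of `1`-motives over a base of any dimension), if the modulus is not constant and the points and
numbers are independent. The second part of the theorem says that the universal family, where these functions are the
coordinates, satisfies these conditions.
-/

set_option autoImplicit false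

open Polynomial Filter Topology NumberField
open scoped PeriodPair

namespace Pool.Agent.Results.MP_8da9ea_nt.RandomNumberFields

/-- The Weierstrass zeta function `ζ(z) = ∑ (1/(z-l) + 1/l + z/l²)`, the sum over the lattice (the summand of
`l = 0` is `1/z`, since `1/0 = 0` in Lean). -/
noncomputable def ζ (L : PeriodPair) (z : ℂ) : ℂ :=
  ∑' l : L.lattice, (1 / (z - l) + 1 / l + z / l ^ 2)

/-- `f` satisfies on `U` a polynomial equation over the polynomials in the coordinates -/
def Algebraic {X : Type} (U : Set (X → ℂ)) (f : (X → ℂ) → ℂ) : Prop :=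
  ∃ Q : Polynomial (MvPolynomial X ℂ), Q ≠ 0 ∧ ∀ z ∈ U, Q.eval₂ (MvPolynomial.eval z) (f z) = 0

/-- A family of lattices `Λ z` with algebraic invariants, whose periods depend analytically on `z`, with elliptic
logarithms `p_i` of algebraic points and logarithms `t_k` of algebraic functions, depending on several parameters. -/
structure Family {X : Type} [Fintype X] {r s : ℕ} (U : Set (X → ℂ)) (Λ : (X → ℂ) → PeriodPair)
    (p : Fin r → (X → ℂ) → ℂ) (t : Fin s → (X → ℂ) → ℂ) : Prop where
  isOpen : IsOpen U
  isPreconnected : IsPreconnected U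
  nonempty : U.Nonempty
  analytic₁ : AnalyticOnNhd ℂ (fun z => (Λ z).ω₁) U
  analytic₂ : AnalyticOnNhd ℂ (fun z => (Λ z).ω₂) U
  algebraic_g₂ : Algebraic U (fun z => (Λ z).g₂)
  algebraic_g₃ : Algebraic U (fun z => (Λ z).g₃)
  /-- the quotient of the periods is not constant -/
  nonconstant : ∀ c : ℂ, ∃ z ∈ U, (Λ z).ω₂ / (Λ z).ω₁ ≠ c
  analytic_p : ∀ i, AnalyticOnNhd ℂ (p i) U
  p_notMem : ∀ i, ∀ z ∈ U, p i z ∉ (Λ z).lattice
  algebraic_wp : ∀ i, Algebraic U (fun z => ℘[Λ z] (p i z))
  analytic_t : ∀ k, AnalyticOnNhd ℂ (t k) U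
  algebraic_exp : ∀ k, Algebraic U (fun z => Complex.exp (t k z))
  /-- the points are independent modulo torsion -/
  independent_p : ∀ n : Fin r → ℤ, (∀ z ∈ U, ∑ i, (n i : ℂ) * p i z ∈ (Λ z).lattice) → n = 0
  /-- no nontrivial combination with integral coefficients of the `t_k` is constant -/
  independent_t : ∀ (m : Fin s → ℤ) (b : ℂ), (∀ z ∈ U, ∑ k, (m k : ℂ) * t k z = b) → m = 0

/-- The universal family: the coordinates of the space are `g₂, g₃`, the first coordinates of the points, and the
numbers; `Λ, p, t` are analytic branches of the periods, the elliptic logarithms and the logarithms on an open set. -/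
structure Universal {r s : ℕ} (U : Set (Fin 2 ⊕ (Fin r ⊕ Fin s) → ℂ)) (Λ : (Fin 2 ⊕ (Fin r ⊕ Fin s) → ℂ) → PeriodPair)
    (p : Fin r → (Fin 2 ⊕ (Fin r ⊕ Fin s) → ℂ) → ℂ) (t : Fin s → (Fin 2 ⊕ (Fin r ⊕ Fin s) → ℂ) → ℂ) : Prop where
  isOpen : IsOpen U
  isPreconnected : IsPreconnected U
  nonempty : U.Nonempty
  analytic₁ : AnalyticOnNhd ℂ (fun z => (Λ z).ω₁) U
  analytic₂ : AnalyticOnNhd ℂ (fun z => (Λ z).ω₂) U
  g₂ : ∀ z ∈ U, (Λ z).g₂ = z (Sum.inl 0)
  g₃ : ∀ z ∈ U, (Λ z).g₃ = z (Sum.inl 1)
  analytic_p : ∀ i, AnalyticOnNhd ℂ (p i) U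
  p_notMem : ∀ i, ∀ z ∈ U, p i z ∉ (Λ z).lattice
  wp : ∀ i, ∀ z ∈ U, ℘[Λ z] (p i z) = z (Sum.inr (Sum.inl i))
  analytic_t : ∀ k, AnalyticOnNhd ℂ (t k) U
  exp : ∀ k, ∀ z ∈ U, Complex.exp (t k z) = z (Sum.inr (Sum.inr k))

/-- The `3 + 2 r + s` functions `ω₁, ω₂, η₁ = 2 ζ(ω₁ / 2)`, `p_i`, `ζ(p_i)`, `t_k` -/
noncomputable def value {X : Type} {r s : ℕ} (Λ : (X → ℂ) → PeriodPair) (p : Fin r → (X → ℂ) → ℂ)
    (t : Fin s → (X → ℂ) → ℂ) : Fin 3 ⊕ (Fin r ⊕ (Fin r ⊕ Fin s)) → (X → ℂ) → ℂ
  | Sum.inl j, z => ![(Λ z).ω₁, (Λ z).ω₂, 2 * ζ (Λ z) ((Λ z).ω₁ / 2)] j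
  | Sum.inr (Sum.inl i), z => p i z
  | Sum.inr (Sum.inr (Sum.inl i)), z => ζ (Λ z) (p i z)
  | Sum.inr (Sum.inr (Sum.inr k)), z => t k z

/-! ### The random number fields and their elements -/

/-- The indices of the random integers: the coefficients `a_0, …, a_g` of the polynomial, the common denominator, and
the numerators of the coordinates of the `x_j`, `j` in `X`, in the basis `1, z, …, z^(g-1)`. -/
abbrev Index (g : ℕ) (X : Type) : Type := Fin (g + 1) ⊕ Option (X × Fin g)

/-- the integral vectors bounded by `T` -/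
noncomputable def box (g : ℕ) (X : Type) [Fintype X] [DecidableEq X] (T : ℕ) : Finset (Index g X → ℤ) :=
  Fintype.piFinset fun _ => Finset.Icc (-(T : ℤ)) T

/-- the polynomial `a_0 + a_1 x + … + a_g x^g` -/
noncomputable def poly {g : ℕ} {X : Type} (n : Index g X → ℤ) : ℂ[X] :=
  ∑ i : Fin (g + 1), C ((n (Sum.inl i) : ℤ) : ℂ) * Polynomial.X ^ (i : ℕ)

/-- the denominator -/
def denominator {g : ℕ} {X : Type} (n : Index g X → ℤ) : ℤ := n (Sum.inr none)

/-- the point `(x_j)` of `ℂ^X` for the root `z` of the polynomial (the embedding of the number field given by `z`) -/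
noncomputable def point {g : ℕ} {X : Type} (n : Index g X → ℤ) (z : ℂ) : X → ℂ :=
  fun j => ∑ l : Fin g, ((n (Sum.inr (some (j, l))) : ℤ) : ℂ) / ((denominator n : ℤ) : ℂ) * z ^ (l : ℕ)

/-- the roots (embeddings) for which the point is in the set `K` -/
noncomputable def roots {g : ℕ} {X : Type} (K : Set (X → ℂ)) (n : Index g X → ℤ) : Finset ℂ := by
  classical exact (poly n).roots.toFinset.filter fun z => point n z ∈ K

/-- The numbers `x q` satisfy no nonzero polynomial relation `R` of degree at most `k` in each of them with coefficients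
`∑_{b < k} ξ_b c_b`, where the `c_b` are integers of a number field of degree at most `k` all of whose conjugates are at
most `T ^ k`. -/
def NoRelation {Q : Type} (ξ : ℕ → ℂ) (k : ℕ) (T : ℝ) (x : Q → ℂ) : Prop :=
  ∀ (F : Type) [Field F] [NumberField F], Module.finrank ℚ F ≤ k → ∀ (io : F →+* ℂ) (R : MvPolynomial Q ℂ),
    (∀ y, R.degreeOf y ≤ k) →
    (∀ m, ∃ c : Fin k → 𝓞 F, (∀ b (φ : F →+* ℂ), ‖φ (c b : F)‖ ≤ T ^ k) ∧ R.coeff m = ∑ b : Fin k, ξ b * io (c b : F)) →
    MvPolynomial.eval x R = 0 → R = 0

/-- The polynomial has degree `g` and simple roots, the denominator is not zero, and there is no relation between the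
values of the `3 + 2 r + s` functions at the points for ALL the roots with points in `K` together. -/
def Good {g : ℕ} {X : Type} {r s : ℕ} (K : Set (X → ℂ)) (Λ : (X → ℂ) → PeriodPair)
    (p : Fin r → (X → ℂ) → ℂ) (t : Fin s → (X → ℂ) → ℂ) (ξ : ℕ → ℂ) (k : ℕ) (T : ℝ) (n : Index g X → ℤ) : Prop :=
  n (Sum.inl (Fin.last g)) ≠ 0 ∧ (poly n).Separable ∧ denominator n ≠ 0 ∧
    NoRelation ξ k T fun q : {z // z ∈ roots K n} × (Fin 3 ⊕ (Fin r ⊕ (Fin r ⊕ Fin s))) =>
      value Λ p t q.2 (point n q.1)

theorem Family.fam {X : Type} [Fintype X] {r s : ℕ} {U : Set (X → ℂ)} {Λ : (X → ℂ) → PeriodPair}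
    {p : Fin r → (X → ℂ) → ℂ} {t : Fin s → (X → ℂ) → ℂ} (h : Family U Λ p t) :
    Pool.Agent.Results.MP_ae0f86_nt.ConjugateOneMotives.Family U Λ p t where
  isOpen := h.isOpen
  isPreconnected := h.isPreconnected
  nonempty := h.nonempty
  analytic₁ := h.analytic₁
  analytic₂ := h.analytic₂
  algebraic_g₂ := h.algebraic_g₂
  algebraic_g₃ := h.algebraic_g₃
  nonconstant := h.nonconstant
  analytic_p := h.analytic_p
  p_notMem := h.p_notMem
  algebraic_wp := h.algebraic_wp
  analytic_t := h.analytic_t
  algebraic_exp := h.algebraic_exp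
  independent_p := h.independent_p
  independent_t := h.independent_t

open scoped Classical in
/-- **1-motives over random number fields, all conjugates together.** For every family, every degree `g ≥ 1`, all closed
sets `K_0, K_1, …` contained in the domain `U` and all complex numbers `ξ_0, ξ_1, …` there is a function `ω(T) → ∞` such
that among all integral vectors bounded by `T` (a polynomial of degree `g` and elements of `ℚ[x]/(f)`) at most the
proportion `1 / ω(T)` is not good, the roots with points in `K_(ω(T))` being considered. The conditions of independence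
are satisfied for the universal family, in which `g₂, g₃`, the `℘(p_i)` and the `exp(t_k)` are random elements of the
random number field. -/
theorem result :
    (∀ {X : Type} [Fintype X] [DecidableEq X] {r s : ℕ} {U : Set (X → ℂ)} {Λ : (X → ℂ) → PeriodPair}
      {p : Fin r → (X → ℂ) → ℂ} {t : Fin s → (X → ℂ) → ℂ}, Family U Λ p t → ∀ g : ℕ, 0 < g →
      ∀ K : ℕ → Set (X → ℂ), (∀ k, IsClosed (K k) ∧ K k ⊆ U) → ∀ ξ : ℕ → ℂ,
      ∃ ω : ℕ → ℕ, Tendsto ω atTop atTop ∧ Monotone ω ∧ ∀ T : ℕ,
        ω T * ((box g X T).filter fun n => ¬ Good (K (ω T)) Λ p t ξ (ω T) T n).card ≤ (box g X T).card) ∧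
    ∀ {r s : ℕ} {U : Set (Fin 2 ⊕ (Fin r ⊕ Fin s) → ℂ)} {Λ : (Fin 2 ⊕ (Fin r ⊕ Fin s) → ℂ) → PeriodPair}
      {p : Fin r → (Fin 2 ⊕ (Fin r ⊕ Fin s) → ℂ) → ℂ} {t : Fin s → (Fin 2 ⊕ (Fin r ⊕ Fin s) → ℂ) → ℂ},
      Universal U Λ p t → Family U Λ p t := by
  constructor
  · intro X _ _ r s U Λ p t h g hg K hK ξ
    obtain ⟨ω, h1, h2, h3⟩ := Pool.Agent.V8H73.RN.main_ind (g := g) hg h.isPreconnected h.isOpen
      (f := Pool.Agent.Results.MP_ae0f86_nt.ConjugateOneMotives.value Λ p t) h.fam.an
      (Pool.Agent.Results.MP_ae0f86_nt.ConjugateOneMotives.independent h.fam) K hK ξ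
    have hv : ∀ y, Pool.Agent.Results.MP_ae0f86_nt.ConjugateOneMotives.value Λ p t y = value Λ p t y := by
      rintro (j | i | i | k)
      · rfl
      · rfl
      · rfl
      · rfl
    refine ⟨ω, h1, h2, fun T => le_trans (Nat.mul_le_mul_left _ (Finset.card_le_card fun n hn => ?_)) (h3 T)⟩
    rw [Finset.mem_filter] at hn ⊢
    refine ⟨hn.1, fun hno => hn.2 ?_⟩
    simp only [hv] at hno
    exact hno
  · intro r s U Λ p t h
    have hb : Pool.Agent.V8H73.RN.Br U Λ p t := ⟨h.isOpen, h.isPreconnected, h.nonempty, h.analytic₁, h.analytic₂,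
      h.g₂, h.g₃, h.analytic_p, h.p_notMem, h.wp, h.analytic_t, h.exp⟩
    have hf := hb.family
    exact ⟨hf.isOpen, hf.isPreconnected, hf.nonempty, hf.analytic₁, hf.analytic₂, hf.algebraic_g₂, hf.algebraic_g₃,
      hf.nonconstant, hf.analytic_p, hf.p_notMem, hf.algebraic_wp, hf.analytic_t, hf.algebraic_exp, hf.independent_p,
      hf.independent_t⟩

end Pool.Agent.Results.MP_8da9ea_nt.RandomNumberFields
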